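import Pool.Agent.Q97.UM.Stm10

/-!
UM5-KLG: the contribution of one zero.
-/

set_option autoImplicit false

namespace Pool.Agent.Q121.UM

open Filter Topology MeasureTheory Set

/-- the positive part of `log (1 / |w|)` -/
noncomputable def Lf (w : ℝ) : ℝ := max 0 (-Real.log w)

/-- half the logarithm of `(U + z)² + V²` -/
noncomputable def gg (U V z : ℝ) : ℝ := Real.log ((U + z) ^ 2 + V ^ 2) / 2

theorem Lf_nonneg (w : ℝ) : 0 ≤ Lf w := le_max_left _ _

theorem Lf_ind : Lf = indicator (Ioc (-1) 1) (fun w => -Real.log w) := by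
  funext w
  unfold Lf
  by_cases h : w ∈ Ioc (-1 : ℝ) 1
  · rw [indicator_of_mem h]
    apply max_eq_right
    rw [neg_nonneg]
    rw [← Real.log_abs]
    apply Real.log_nonpos (abs_nonneg _)
    rw [abs_le]
    exact ⟨h.1.le, h.2⟩
  · rw [indicator_of_notMem h]
    apply max_eq_left
    rw [neg_nonpos, ← Real.log_abs]
    apply Real.log_nonneg
    by_contra h2
    rw [not_le, abs_lt] at h2
    exact h ⟨h2.1, h2.2.le⟩

theorem Lf_int : Integrable Lf := by
  rw [Lf_ind, integrable_indicator_iff measurableSet_Ioc]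
  have h := (intervalIntegral.intervalIntegrable_log' (a := -1) (b := 1)).neg
  exact (intervalIntegrable_iff_integrableOn_Ioc_of_le (by norm_num)).1 h

theorem Lf_int_add (U : ℝ) : Integrable (fun z => Lf (U + z)) := Lf_int.comp_add_left U

theorem Lf_int_sub (U : ℝ) : Integrable (fun z => Lf (U - z)) := Lf_int.comp_sub_left U

theorem q_int : Integrable (fun z : ℝ => 1 / (1 + |z|) ^ 2) := by
  have h := integrable_one_add_norm (E := ℝ) (μ := volume) (r := 2) (by simp)
  refine h.congr ?_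
  filter_upwards with z
  rw [Real.norm_eq_abs, Real.rpow_neg (by positivity), one_div]
  norm_num

/-- the size of `½ log X` -/
theorem abs_half_log {w W : ℝ} (hw : w ≠ 0) (hW : 0 ≤ W) :
    |Real.log (w ^ 2 + W) / 2| ≤ Lf w + (w ^ 2 + W) / 2 := by
  have hw2 : 0 < w ^ 2 := by positivity
  have hX : 0 < w ^ 2 + W := by positivity
  rw [abs_le]
  constructor
  · have h1 : Real.log (w ^ 2) ≤ Real.log (w ^ 2 + W) := Real.log_le_log hw2 (by linarith)
    have h2 : Real.log (w ^ 2) = 2 * Real.log w := by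
      rw [Real.log_pow]; push_cast; ring
    have h3 : -Real.log w ≤ Lf w := le_max_right _ _
    linarith
  · have h1 : Real.log (w ^ 2 + W) ≤ w ^ 2 + W := by
      have := Real.log_le_sub_one_of_pos hX
      linarith
    have h2 := Lf_nonneg w
    linarith

/-- adding the same number brings a quotient closer to one -/
theorem log_closer {A B W : ℝ} (hA : 0 < A) (hB : 0 < B) (hW : 0 ≤ W) :
    |Real.log (B + W) - Real.log (A + W)| ≤ |Real.log B - Real.log A| := by
  have key : ∀ A B : ℝ, 0 < A → A ≤ B →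
      |Real.log (B + W) - Real.log (A + W)| ≤ |Real.log B - Real.log A| := by
    intro A B hA hAB
    have hB : 0 < B := hA.trans_le hAB
    rw [abs_of_nonneg (sub_nonneg.2 (Real.log_le_log (by positivity) (by linarith))),
      abs_of_nonneg (sub_nonneg.2 (Real.log_le_log hA hAB)),
      ← Real.log_div (by positivity) (by positivity), ← Real.log_div (by positivity) (by positivity)]
    apply Real.log_le_log (by positivity)
    rw [div_le_div_iff₀ (by positivity) hA]
    nlinarith
  rcases le_total A B with h | h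
  · exact key A B hA h
  · rw [abs_sub_comm, abs_sub_comm (Real.log B)]
    exact key B A hB h

/-- bound for `|U| ≥ 1` -/
theorem far_bound {U V z : ℝ} (hU : 1 ≤ |U|) (hz : U + z ≠ 0) :
    |gg U V 0 - gg U V z| ≤ Lf (U + z) + |U + z| + |U| := by
  have hU0 : U ≠ 0 := by
    rintro rfl
    simp at hU
    linarith
  have h1 : |Real.log (U ^ 2 + V ^ 2) - Real.log ((U + z) ^ 2 + V ^ 2)| ≤
      |Real.log (U ^ 2) - Real.log ((U + z) ^ 2)| :=
    log_closer (by positivity) (by positivity) (by positivity)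
  have h2 : Real.log (U ^ 2) = 2 * Real.log |U| := by
    rw [Real.log_abs, Real.log_pow]; push_cast; ring
  have h3 : Real.log ((U + z) ^ 2) = 2 * Real.log |U + z| := by
    rw [Real.log_abs, Real.log_pow]; push_cast; ring
  rw [h2, h3] at h1
  have e : gg U V 0 - gg U V z = (Real.log (U ^ 2 + V ^ 2) - Real.log ((U + z) ^ 2 + V ^ 2)) / 2 := by
    unfold gg
    rw [add_zero]
    ring
  rw [e, abs_div, abs_two]
  have h4 : |(2 * Real.log |U| - 2 * Real.log |U + z|)| ≤ 2 * (Lf (U + z) + |U + z| + |U|) := by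
    have a1 : 0 ≤ Real.log |U| := Real.log_nonneg hU
    have a2 : Real.log |U| ≤ |U| := by
      have := Real.log_le_sub_one_of_pos (show 0 < |U| by positivity)
      linarith
    have a3 : Real.log |U + z| ≤ |U + z| := by
      have := Real.log_le_sub_one_of_pos (show 0 < |U + z| by positivity)
      linarith
    have a4 : -Real.log |U + z| ≤ Lf (U + z) := by
      rw [Real.log_abs]; exact le_max_right _ _
    have a5 := Lf_nonneg (U + z)
    have a6 := abs_nonneg (U + z)
    rw [abs_le]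
    constructor <;> linarith
  linarith

theorem abs_log_le {r : ℝ} (hr : 1 / 2 ≤ r) : |Real.log r| ≤ 2 * |r - 1| := by
  have hr0 : 0 < r := by linarith
  rw [abs_le]
  constructor
  · have h1 := Real.log_le_sub_one_of_pos (inv_pos.2 hr0)
    rw [Real.log_inv] at h1
    have h2 : r⁻¹ - 1 ≤ 2 * |r - 1| := by
      have h3 : r⁻¹ - 1 = (1 - r) / r := by field_simp
      rw [h3, div_le_iff₀ hr0]
      have h4 : 1 - r ≤ |r - 1| := by rw [abs_sub_comm]; exact le_abs_self _
      have h5 := abs_nonneg (r - 1)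
      nlinarith
    linarith
  · have h1 := Real.log_le_sub_one_of_pos hr0
    have h2 := le_abs_self (r - 1)
    have h5 := abs_nonneg (r - 1)
    linarith

/-- second difference for `|z| ≤ |U| / 2` -/
theorem near_bound {U V z : ℝ} (hU : 1 ≤ |U|) (hz : |z| ≤ |U| / 2) :
    |2 * gg U V 0 - gg U V z - gg U V (-z)| ≤ 3 * z ^ 2 / U ^ 2 := by
  have hU0 : 0 < |U| := by linarith
  have hU2 : 0 < U ^ 2 := by
    rw [← sq_abs]; positivity
  set N : ℝ := U ^ 2 + V ^ 2 with hN
  have hNU : U ^ 2 ≤ N := by rw [hN]; nlinarith [sq_nonneg V]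
  have hN0 : 0 < N := by linarith
  have hz2 : z ^ 2 ≤ U ^ 2 / 4 := by
    have := mul_self_le_mul_self (abs_nonneg z) hz
    rw [← sq_abs z, ← sq_abs U]
    nlinarith
  have hz2N : z ^ 2 ≤ N / 4 := by linarith
  have hzz := sq_nonneg z
  set r : ℝ := ((U + z) ^ 2 + V ^ 2) * ((U - z) ^ 2 + V ^ 2) / N ^ 2 with hr
  have e1 : ((U + z) ^ 2 + V ^ 2) * ((U - z) ^ 2 + V ^ 2) =
      N ^ 2 + (2 * N * z ^ 2 + z ^ 2 * z ^ 2 - 4 * U ^ 2 * z ^ 2) := by
    rw [hN]; ring
  have hr1 : r - 1 = (2 * N * z ^ 2 + z ^ 2 * z ^ 2 - 4 * U ^ 2 * z ^ 2) / N ^ 2 := by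
    rw [hr, e1]
    field_simp
    ring
  have b1 : |r - 1| ≤ (9 / 4) * z ^ 2 / N := by
    rw [hr1, abs_div, abs_of_pos (show 0 < N ^ 2 by positivity), div_le_div_iff₀ (by positivity) hN0]
    have : |2 * N * z ^ 2 + z ^ 2 * z ^ 2 - 4 * U ^ 2 * z ^ 2| ≤ (9 / 4) * z ^ 2 * N := by
      rw [abs_le]
      constructor <;> nlinarith
    calc _ ≤ (9 / 4) * z ^ 2 * N * N := mul_le_mul_of_nonneg_right this hN0.le
      _ = _ := by ring
  have b2 : 1 / 2 ≤ r := by
    have : -(1 / 2) ≤ r - 1 := by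
      rw [hr1, le_div_iff₀ (by positivity)]
      nlinarith
    linarith
  have b3 := abs_log_le b2
  have p1 : 0 < (U + z) ^ 2 + V ^ 2 := by
    have : U + z ≠ 0 := by
      intro h
      have : z = -U := by linarith
      rw [this, abs_neg] at hz
      linarith
    positivity
  have p2 : 0 < (U - z) ^ 2 + V ^ 2 := by
    have : U - z ≠ 0 := by
      intro h
      have : z = U := by linarith
      rw [this] at hz
      linarith
    positivity
  have e2 : 2 * gg U V 0 - gg U V z - gg U V (-z) = -(Real.log r / 2) := by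
    rw [hr, Real.log_div (by positivity) (by positivity), Real.log_mul p1.ne' p2.ne', Real.log_pow]
    unfold gg
    rw [add_zero, ← sub_eq_add_neg U z, ← hN]
    push_cast
    ring
  rw [e2, abs_neg, abs_div, abs_two]
  have b4 : (9 / 4) * z ^ 2 / N ≤ 3 * z ^ 2 / U ^ 2 := by
    rw [div_le_div_iff₀ hN0 hU2]
    nlinarith [mul_nonneg hzz hU2.le, mul_nonneg hzz hN0.le, mul_le_mul_of_nonneg_left hNU hzz]
  linarith

/-- upper bound for `|U| ≤ 1` -/
theorem small_upper {U V z : ℝ} (hU : |U| ≤ 1) (hN : 0 < U ^ 2 + V ^ 2) (hz : U + z ≠ 0) :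
    gg U V 0 - gg U V z ≤ Lf (U + z) + |z| + 1 := by
  set N : ℝ := U ^ 2 + V ^ 2 with hNd
  have hw2 : 0 < (U + z) ^ 2 := by positivity
  have hX : 0 < (U + z) ^ 2 + V ^ 2 := by positivity
  have e0 : gg U V 0 = Real.log N / 2 := by unfold gg; rw [add_zero]
  have a3 : -Real.log (U + z) ≤ Lf (U + z) := le_max_right _ _
  have a4 : Real.log ((U + z) ^ 2) = 2 * Real.log (U + z) := by
    rw [Real.log_pow]; push_cast; ring
  have a5 : Real.log ((U + z) ^ 2) ≤ Real.log ((U + z) ^ 2 + V ^ 2) :=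
    Real.log_le_log hw2 (by nlinarith [sq_nonneg V])
  have hz0 := abs_nonneg z
  have hL := Lf_nonneg (U + z)
  have hU2 : U ^ 2 ≤ 1 := by
    rw [← sq_abs]
    have := abs_nonneg U
    nlinarith
  rw [e0]
  unfold gg
  rcases le_total N 2 with h | h
  · have h1 : Real.log N ≤ 1 := by
      have := Real.log_le_sub_one_of_pos hN
      linarith
    linarith
  · -- `V² ≥ N / 2`
    have h1 : N / 2 ≤ (U + z) ^ 2 + V ^ 2 := by nlinarith [sq_nonneg (U + z)]
    have h2 : Real.log (N / 2) ≤ Real.log ((U + z) ^ 2 + V ^ 2) :=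
      Real.log_le_log (by positivity) h1
    rw [Real.log_div hN.ne' two_ne_zero] at h2
    have h3 : Real.log 2 ≤ 1 := by
      have := Real.log_le_sub_one_of_pos (show (0 : ℝ) < 2 by norm_num)
      linarith
    linarith

/-- lower bound for `|U| ≤ 1` -/
theorem small_lower {U V z : ℝ} (hU : |U| ≤ 1) (hN : 0 < U ^ 2 + V ^ 2) :
    -(|z| + 1) - max 0 (Real.log (1 / Real.sqrt (U ^ 2 + V ^ 2))) ≤ gg U V 0 - gg U V z := by
  set N : ℝ := U ^ 2 + V ^ 2 with hNd
  have e0 : gg U V 0 = Real.log N / 2 := by unfold gg; rw [add_zero]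
  have e1 : Real.log (1 / Real.sqrt N) = -(Real.log N / 2) := by
    rw [one_div, Real.log_inv, Real.log_sqrt hN.le]
  have hz0 := abs_nonneg z
  have hUa := abs_nonneg U
  have hN1 : N ≤ 1 + V ^ 2 := by
    rw [hNd, ← sq_abs U]
    nlinarith
  have hsq : (U + z) ^ 2 ≤ (1 + |z|) ^ 2 := by
    rw [← sq_abs]
    have h1 : |U + z| ≤ 1 + |z| := (abs_add_le _ _).trans (by linarith)
    have h2 := abs_nonneg (U + z)
    nlinarith
  have hsq2 : (U + z) ^ 2 + V ^ 2 ≤ (1 + |z|) ^ 2 * max N 1 := by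
    have h1 : (U + z) ^ 2 + V ^ 2 ≤ N + 2 * |z| + z ^ 2 := by
      have : U * z ≤ |z| := by
        calc U * z ≤ |U * z| := le_abs_self _
          _ = |U| * |z| := abs_mul _ _
          _ ≤ 1 * |z| := mul_le_mul_of_nonneg_right hU hz0
          _ = |z| := one_mul _
      rw [hNd]
      nlinarith
    have h2 : N ≤ max N 1 := le_max_left _ _
    have h3 : 1 ≤ max N 1 := le_max_right _ _
    rw [← sq_abs z] at h1
    nlinarith [mul_nonneg hz0 (sub_nonneg.2 h3), mul_nonneg (mul_nonneg hz0 hz0) (sub_nonneg.2 h3)]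
  have h1 : Real.log ((U + z) ^ 2 + V ^ 2) ≤ 2 * |z| + max 0 (Real.log N) := by
    rcases (show 0 ≤ (U + z) ^ 2 + V ^ 2 by positivity).eq_or_lt with h0 | h0
    · rw [← h0, Real.log_zero]
      positivity
    · have h2 := Real.log_le_log h0 hsq2
      have h3 : 0 < max N 1 := lt_max_of_lt_right one_pos
      rw [Real.log_mul (by positivity) h3.ne', Real.log_pow] at h2
      have h4 : Real.log (1 + |z|) ≤ |z| := by
        have := Real.log_le_sub_one_of_pos (show (0 : ℝ) < 1 + |z| by positivity)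
        linarith
      have h5 : Real.log (max N 1) ≤ max 0 (Real.log N) := by
        rcases le_total N 1 with h | h
        · rw [max_eq_right h, Real.log_one]
          exact le_max_left _ _
        · rw [max_eq_left h]
          exact le_max_right _ _
      push_cast at h2
      linarith
  rw [e0, e1]
  unfold gg
  rcases le_total 0 (Real.log N) with h | h
  · rw [max_eq_right h] at h1
    have := le_max_left 0 (-(Real.log N / 2))
    linarith
  · rw [max_eq_left h] at h1
    have := le_max_right 0 (-(Real.log N / 2))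
    linarith

theorem gg_meas (U V : ℝ) : Measurable (gg U V) := by
  unfold gg
  fun_prop

/-- facts about the kernel used here -/
structure KK (k : ℝ → ℝ) (C : ℝ) : Prop where
  cont : Continuous k
  nn : ∀ x, 0 ≤ k x
  ev : ∀ x, k (-x) = k x
  int : Integrable k
  one : ∫ x, k x = 1
  C0 : 0 ≤ C
  dec : ∀ x, k x ≤ C / (1 + |x|) ^ 6

section

variable {k : ℝ → ℝ} {C : ℝ}

theorem KK.leC (h : KK k C) (x : ℝ) : k x ≤ C := by
  refine (h.dec x).trans ?_
  apply div_le_self h.C0
  apply one_le_pow₀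
  have := abs_nonneg x
  linarith

theorem KK.q (h : KK k C) {A : ℝ} (hA : 0 ≤ A) (z : ℝ) :
    k z * (A + z ^ 2) ≤ C * (A + 1) * (1 / (1 + |z|) ^ 2) := by
  have hz := abs_nonneg z
  have h0 := h.C0
  have hp : 0 < 1 + |z| := by linarith
  calc k z * (A + z ^ 2) ≤ C / (1 + |z|) ^ 6 * ((A + 1) * (1 + |z|) ^ 4) := by
        apply mul_le_mul (h.dec z) _ (by positivity) (by positivity)
        have h1 : z ^ 2 ≤ (1 + |z|) ^ 2 := by
          rw [← sq_abs z]
          nlinarith
        have h2 : (1 : ℝ) ≤ (1 + |z|) ^ 2 := by nlinarith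
        have h3 : (1 + |z|) ^ 4 = (1 + |z|) ^ 2 * (1 + |z|) ^ 2 := by ring
        rw [h3]
        nlinarith [mul_nonneg hA (sub_nonneg.2 h2), mul_nonneg (sub_nonneg.2 h2) (sub_nonneg.2 h2)]
    _ = _ := by
        field_simp

/-- integrability and the basic estimate -/
theorem KK.base (h : KK k C) {A : ℝ} (hA : 0 ≤ A) (U : ℝ) {φ : ℝ → ℝ} (hφ : Measurable φ)
    (hb : ∀ z, U + z ≠ 0 → |φ z| ≤ Lf (U + z) + (A + z ^ 2)) :
    Integrable (fun z => k z * φ z) ∧
      |∫ z, k z * φ z| ≤ C * (∫ z, Lf z) + C * (A + 1) * ∫ z : ℝ, 1 / (1 + |z|) ^ 2 := by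
  have hI : Integrable (fun z : ℝ => C * Lf (U + z) + C * (A + 1) * (1 / (1 + |z|) ^ 2)) :=
    ((Lf_int_add U).const_mul C).add (q_int.const_mul _)
  have hae : ∀ᵐ z : ℝ, ‖k z * φ z‖ ≤ C * Lf (U + z) + C * (A + 1) * (1 / (1 + |z|) ^ 2) := by
    filter_upwards [Measure.ae_ne volume (-U)] with z hz
    have hz' : U + z ≠ 0 := fun h => hz (by linarith)
    rw [norm_mul, Real.norm_eq_abs, Real.norm_eq_abs, abs_of_nonneg (h.nn z)]
    have h1 := mul_le_mul_of_nonneg_left (hb z hz') (h.nn z)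
    have h2 := mul_le_mul_of_nonneg_right (h.leC z) (Lf_nonneg (U + z))
    have h3 := h.q hA z
    rw [mul_add] at h1
    linarith
  refine ⟨hI.mono' ((h.cont.measurable.mul hφ).aestronglyMeasurable) hae, ?_⟩
  calc |∫ z, k z * φ z| ≤ ∫ z, ‖k z * φ z‖ := by
        rw [← Real.norm_eq_abs]
        exact norm_integral_le_integral_norm _
    _ ≤ ∫ z, (C * Lf (U + z) + C * (A + 1) * (1 / (1 + |z|) ^ 2)) :=
        integral_mono_of_nonneg (Eventually.of_forall fun z => norm_nonneg _) hI hae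
    _ = C * (∫ z, Lf z) + C * (A + 1) * ∫ z : ℝ, 1 / (1 + |z|) ^ 2 := by
        rw [integral_add ((Lf_int_add U).const_mul C) (q_int.const_mul _), integral_const_mul,
          integral_const_mul, integral_add_left_eq_self (fun z => Lf z) U]

theorem gg_bd (U V z : ℝ) (hz : U + z ≠ 0) :
    |gg U V z| ≤ Lf (U + z) + ((U ^ 2 + V ^ 2) + z ^ 2) := by
  have h1 := abs_half_log (w := U + z) (W := V ^ 2) hz (by positivity)
  have h2 : ((U + z) ^ 2 + V ^ 2) / 2 ≤ U ^ 2 + V ^ 2 + z ^ 2 := by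
    nlinarith [sq_nonneg (U - z), sq_nonneg V]
  unfold gg
  linarith

theorem KK.int0 (h : KK k C) (U V : ℝ) :
    Integrable (fun z => k z * (gg U V 0 - gg U V z)) := by
  refine (h.base (A := |gg U V 0| + (U ^ 2 + V ^ 2)) (by positivity) U
    (φ := fun z => gg U V 0 - gg U V z) (measurable_const.sub (gg_meas U V)) ?_).1
  intro z hz
  have h1 := gg_bd U V z hz
  have h2 : |gg U V 0 - gg U V z| ≤ |gg U V 0| + |gg U V z| := abs_sub _ _
  linarith

/-- the constants -/
noncomputable def cst (C : ℝ) : ℝ := 4 * C * (∫ z, Lf z) + 30 * C * ∫ z : ℝ, 1 / (1 + |z|) ^ 2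

theorem L0 : 0 ≤ ∫ z, Lf z := integral_nonneg Lf_nonneg

theorem q0 : 0 ≤ ∫ z : ℝ, 1 / (1 + |z|) ^ 2 := integral_nonneg fun z => by positivity

theorem cst_nonneg {C : ℝ} (hC : 0 ≤ C) : 0 ≤ cst C := by
  unfold cst
  have := L0
  have := q0
  positivity

theorem KK.up (h : KK k C) {U V : ℝ} (hU : |U| ≤ 1) (hN : 0 < U ^ 2 + V ^ 2) :
    ∫ z, k z * (gg U V 0 - gg U V z) ≤ cst C := by
  have hb := h.base (A := 2) (by norm_num) U (φ := fun z => Lf (U + z) + |z| + 1)
    (by
      unfold Lf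
      fun_prop)
    (by
      intro z hz
      have := Lf_nonneg (U + z)
      rw [abs_of_nonneg (by positivity)]
      nlinarith [abs_nonneg z, sq_abs z, sq_nonneg (|z| - 1)])
  have h1 : ∫ z, k z * (gg U V 0 - gg U V z) ≤ ∫ z, k z * (Lf (U + z) + |z| + 1) := by
    apply integral_mono_ae (h.int0 U V) hb.1
    filter_upwards [Measure.ae_ne volume (-U)] with z hz
    have hz' : U + z ≠ 0 := fun h => hz (by linarith)
    exact mul_le_mul_of_nonneg_left (small_upper hU hN hz') (h.nn z)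
  have h2 := le_abs_self (∫ z, k z * (Lf (U + z) + |z| + 1))
  have h3 := hb.2
  have h4 := L0
  have h5 := q0
  have h6 := h.C0
  unfold cst
  nlinarith [mul_nonneg h6 h4, mul_nonneg h6 h5]

theorem KK.low (h : KK k C) {U V : ℝ} (hU : |U| ≤ 1) (hN : 0 < U ^ 2 + V ^ 2) :
    -cst C - max 0 (Real.log (1 / Real.sqrt (U ^ 2 + V ^ 2))) ≤
      ∫ z, k z * (gg U V 0 - gg U V z) := by
  have hb := h.base (A := 2) (by norm_num) U (φ := fun z => |z| + 1)
    (by fun_prop)
    (by
      intro z hz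
      have := Lf_nonneg (U + z)
      rw [abs_of_nonneg (by positivity)]
      nlinarith [abs_nonneg z, sq_abs z, sq_nonneg (|z| - 1)])
  set M : ℝ := max 0 (Real.log (1 / Real.sqrt (U ^ 2 + V ^ 2))) with hM
  have hng : Integrable (fun z => -(k z * (|z| + 1))) := hb.1.neg
  have h1 : ∫ z, (-(k z * (|z| + 1)) - k z * M) ≤ ∫ z, k z * (gg U V 0 - gg U V z) := by
    apply integral_mono (hng.sub (h.int.mul_const M)) (h.int0 U V)
    intro z
    show -(k z * (|z| + 1)) - k z * M ≤ k z * (gg U V 0 - gg U V z)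
    have h2 := mul_le_mul_of_nonneg_left (small_lower (z := z) hU hN) (h.nn z)
    rw [← hM] at h2
    linarith
  have h2 : ∫ z, (-(k z * (|z| + 1)) - k z * M) = -(∫ z, k z * (|z| + 1)) - M := by
    rw [integral_sub hng (h.int.mul_const M), integral_neg, integral_mul_const, h.one, one_mul]
  rw [h2] at h1
  have h2 := le_abs_self (∫ z, k z * (|z| + 1))
  have h3 := hb.2
  have h4 := L0
  have h5 := q0
  have h6 := h.C0
  unfold cst
  nlinarith [mul_nonneg h6 h4, mul_nonneg h6 h5]

theorem KK.far (h : KK k C) {U V : ℝ} (hU : 1 ≤ |U|) :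
    |∫ z, k z * (gg U V 0 - gg U V z)| ≤ cst C / U ^ 2 := by
  have hU0 : 0 < |U| := by linarith
  have hU2 : 0 < U ^ 2 := by
    rw [← sq_abs]; positivity
  have h6 := h.C0
  have hi := h.int0 U V
  have hi2 : Integrable (fun z => k z * (gg U V 0 - gg U V (-z))) := by
    have := hi.comp_neg
    refine this.congr ?_
    filter_upwards with z
    rw [h.ev]
  have e1 : ∫ z, k z * (gg U V 0 - gg U V (-z)) = ∫ z, k z * (gg U V 0 - gg U V z) := by
    rw [← integral_neg_eq_self (fun z => k z * (gg U V 0 - gg U V z))]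
    apply integral_congr_ae
    filter_upwards with z
    rw [h.ev]
  have e2 : 2 * ∫ z, k z * (gg U V 0 - gg U V z) =
      ∫ z, k z * (2 * gg U V 0 - gg U V z - gg U V (-z)) := by
    rw [two_mul]
    nth_rewrite 2 [← e1]
    rw [← integral_add hi hi2]
    apply integral_congr_ae
    filter_upwards with z
    ring
  have hLL : Integrable (fun z : ℝ => Lf (U + z) + Lf (U - z)) :=
    (Lf_int_add U).add (Lf_int_sub U)
  have hI : Integrable (fun z : ℝ => (4 * C / U ^ 2) * (Lf (U + z) + Lf (U - z)) +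
      (43 * C / U ^ 2) * (1 / (1 + |z|) ^ 2)) :=
    (hLL.const_mul _).add (q_int.const_mul _)
  have hae : ∀ᵐ z : ℝ, ‖k z * (2 * gg U V 0 - gg U V z - gg U V (-z))‖ ≤
      (4 * C / U ^ 2) * (Lf (U + z) + Lf (U - z)) + (43 * C / U ^ 2) * (1 / (1 + |z|) ^ 2) := by
    filter_upwards [Measure.ae_ne volume (-U), Measure.ae_ne volume U] with z hz hz2
    have hz' : U + z ≠ 0 := fun h => hz (by linarith)
    have hz2' : U + (-z) ≠ 0 := fun h => hz2 (by linarith)
    have hk := h.nn z
    have hL1 := Lf_nonneg (U + z)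
    have hL2 := Lf_nonneg (U - z)
    have hz0 := abs_nonneg z
    have hp : 0 < 1 + |z| := by linarith
    rw [norm_mul, Real.norm_eq_abs, Real.norm_eq_abs, abs_of_nonneg hk]
    have ht1 : 0 ≤ (4 * C / U ^ 2) * (Lf (U + z) + Lf (U - z)) := by positivity
    rcases le_total |z| (|U| / 2) with hc | hc
    · have h1 := mul_le_mul_of_nonneg_left (near_bound (V := V) hU hc) hk
      have h2 := h.q (A := 0) le_rfl z
      have h3 : k z * (3 * z ^ 2 / U ^ 2) = 3 / U ^ 2 * (k z * (0 + z ^ 2)) := by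
        ring
      have h4 : 3 / U ^ 2 * (k z * (0 + z ^ 2)) ≤ 3 / U ^ 2 * (C * (0 + 1) * (1 / (1 + |z|) ^ 2)) :=
        mul_le_mul_of_nonneg_left h2 (by positivity)
      have h5 : 3 / U ^ 2 * (C * (0 + 1) * (1 / (1 + |z|) ^ 2)) ≤
          (43 * C / U ^ 2) * (1 / (1 + |z|) ^ 2) := by
        have e : 3 / U ^ 2 * (C * (0 + 1) * (1 / (1 + |z|) ^ 2)) =
          (3 * C / U ^ 2) * (1 / (1 + |z|) ^ 2) := by ring
        rw [e]
        apply mul_le_mul_of_nonneg_right _ (by positivity)
        apply div_le_div_of_nonneg_right _ hU2.le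
        linarith
      linarith
    · have f1 := far_bound (V := V) hU hz'
      have f2 := far_bound (V := V) hU hz2'
      have f3 : |2 * gg U V 0 - gg U V z - gg U V (-z)| ≤
          |gg U V 0 - gg U V z| + |gg U V 0 - gg U V (-z)| := by
        have e : 2 * gg U V 0 - gg U V z - gg U V (-z) =
          (gg U V 0 - gg U V z) + (gg U V 0 - gg U V (-z)) := by ring
        rw [e]
        exact abs_add_le _ _
      have f4 : |U + z| ≤ |U| + |z| := abs_add_le _ _
      have f5 : |U + (-z)| ≤ |U| + |z| := by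
        have := abs_add_le U (-z)
        rwa [abs_neg] at this
      have e5 : U + -z = U - z := by ring
      rw [e5] at f2 f5
      have f6 : |2 * gg U V 0 - gg U V z - gg U V (-z)| ≤
          (Lf (U + z) + Lf (U - z)) + 10 * |z| := by linarith
      have g1 : U ^ 2 ≤ 4 * (1 + |z|) ^ 2 := by
        rw [← sq_abs]
        nlinarith
      have g2 : k z ≤ 4 * C / U ^ 2 * (1 / (1 + |z|) ^ 4) := by
        refine (h.dec z).trans ?_
        rw [div_mul_div_comm, mul_one, div_le_div_iff₀ (by positivity) (by positivity)]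
        have : (1 + |z|) ^ 6 = (1 + |z|) ^ 2 * (1 + |z|) ^ 4 := by ring
        rw [this]
        have h7 : 0 ≤ C * (1 + |z|) ^ 4 := by positivity
        nlinarith [mul_le_mul_of_nonneg_left g1 h7]
      have g3 : 1 / (1 + |z|) ^ 4 ≤ 1 := by
        rw [div_le_one (by positivity)]
        exact one_le_pow₀ (by linarith)
      have g4 : 1 / (1 + |z|) ^ 4 * |z| ≤ 1 / (1 + |z|) ^ 2 := by
        rw [div_mul_eq_mul_div, one_mul, div_le_div_iff₀ (by positivity) (by positivity)]
        have : (1 + |z|) ^ 4 = (1 + |z|) ^ 2 * (1 + |z|) ^ 2 := by ring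
        rw [this]
        have h8 : |z| ≤ (1 + |z|) ^ 2 := by nlinarith
        nlinarith [mul_le_mul_of_nonneg_right h8 (show 0 ≤ (1 + |z|) ^ 2 by positivity)]
      have hc4 : 0 ≤ 4 * C / U ^ 2 := by positivity
      calc k z * |2 * gg U V 0 - gg U V z - gg U V (-z)|
          ≤ (4 * C / U ^ 2 * (1 / (1 + |z|) ^ 4)) * ((Lf (U + z) + Lf (U - z)) + 10 * |z|) :=
            mul_le_mul g2 f6 (abs_nonneg _) (by positivity)
        _ = (4 * C / U ^ 2) * (1 / (1 + |z|) ^ 4 * (Lf (U + z) + Lf (U - z))) +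
            (40 * C / U ^ 2) * (1 / (1 + |z|) ^ 4 * |z|) := by ring
        _ ≤ (4 * C / U ^ 2) * (1 * (Lf (U + z) + Lf (U - z))) +
            (40 * C / U ^ 2) * (1 / (1 + |z|) ^ 2) := by
            apply add_le_add
            · apply mul_le_mul_of_nonneg_left _ hc4
              exact mul_le_mul_of_nonneg_right g3 (by linarith)
            · exact mul_le_mul_of_nonneg_left g4 (by positivity)
        _ ≤ _ := by
            rw [one_mul]
            apply add_le_add le_rfl
            apply mul_le_mul_of_nonneg_right _ (by positivity)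
            apply div_le_div_of_nonneg_right _ hU2.le
            linarith
  have h1 : |2 * ∫ z, k z * (gg U V 0 - gg U V z)| ≤
      (4 * C / U ^ 2) * ((∫ z, Lf z) + ∫ z, Lf z) + (43 * C / U ^ 2) * ∫ z : ℝ, 1 / (1 + |z|) ^ 2 := by
    rw [e2]
    calc |∫ z, k z * (2 * gg U V 0 - gg U V z - gg U V (-z))|
        ≤ ∫ z, ‖k z * (2 * gg U V 0 - gg U V z - gg U V (-z))‖ := by
          rw [← Real.norm_eq_abs]
          exact norm_integral_le_integral_norm _
      _ ≤ _ := integral_mono_of_nonneg (Eventually.of_forall fun z => norm_nonneg _) hI hae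
      _ = _ := by
          rw [integral_add (hLL.const_mul _) (q_int.const_mul _),
            integral_const_mul, integral_const_mul, integral_add (Lf_int_add U) (Lf_int_sub U),
            integral_add_left_eq_self (fun z => Lf z) U,
            integral_sub_left_eq_self (fun z => Lf z) volume U]
  rw [abs_mul, abs_two] at h1
  have h4 := L0
  have h5 := q0
  have e3 : cst C / U ^ 2 = (4 * C / U ^ 2) * (∫ z, Lf z) +
      (30 * C / U ^ 2) * ∫ z : ℝ, 1 / (1 + |z|) ^ 2 := by
    unfold cst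
    ring
  rw [e3]
  have h7 : (43 * C / U ^ 2) * (∫ z : ℝ, 1 / (1 + |z|) ^ 2) ≤
      2 * ((30 * C / U ^ 2) * ∫ z : ℝ, 1 / (1 + |z|) ^ 2) := by
    rw [← mul_assoc]
    apply mul_le_mul_of_nonneg_right _ h5
    have e : 2 * (30 * C / U ^ 2) = 60 * C / U ^ 2 := by ring
    rw [e]
    apply div_le_div_of_nonneg_right _ hU2.le
    linarith
  linarith

theorem KK.line (h : KK k C) {U : ℝ} (hU : |U| ≤ 1) :
    |(∫ z, k z * (gg U 0 0 - gg U 0 z)) - Real.log (|U|)| ≤ cst C := by
  have hb := h.base (A := 1) (by norm_num) U (φ := fun z => gg U 0 z) (gg_meas U 0)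
    (by
      intro z hz
      have h1 := gg_bd U 0 z hz
      have h2 : U ^ 2 ≤ 1 := by
        rw [← sq_abs]
        have := abs_nonneg U
        nlinarith
      linarith)
  have e1 : gg U 0 0 = Real.log |U| := by
    unfold gg
    rw [Real.log_abs, add_zero, zero_pow two_ne_zero, add_zero, Real.log_pow]
    push_cast
    ring
  have e2 : ∫ z, k z * (gg U 0 0 - gg U 0 z) = Real.log |U| - ∫ z, k z * gg U 0 z := by
    have e3 : ∀ z, k z * (gg U 0 0 - gg U 0 z) = k z * gg U 0 0 - k z * gg U 0 z := by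
      intro z; ring
    simp only [e3]
    rw [integral_sub (h.int.mul_const _) hb.1, integral_mul_const, h.one, one_mul, e1]
  rw [e2]
  have e3 : Real.log |U| - (∫ z, k z * gg U 0 z) - Real.log |U| = -∫ z, k z * gg U 0 z := by ring
  rw [e3, abs_neg]
  have h3 := hb.2
  have h4 := L0
  have h5 := q0
  have h6 := h.C0
  unfold cst
  nlinarith [mul_nonneg h6 h4, mul_nonneg h6 h5]

/-- all the estimates for `D = 1` -/
theorem KK.all (h : KK k C) {U V : ℝ} (hN : 0 < U ^ 2 + V ^ 2) :
    (∫ z, k z * (gg U V 0 - gg U V z)) ≤ 4 * cst C / (1 + |U|) ^ 2 ∧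
    -(4 * cst C / (1 + |U|) ^ 2) - max 0 (Real.log (1 / Real.sqrt (U ^ 2 + V ^ 2))) ≤
      ∫ z, k z * (gg U V 0 - gg U V z) := by
  have hc := cst_nonneg h.C0
  have hU0 := abs_nonneg U
  rcases le_total |U| 1 with hU | hU
  · have h1 : cst C ≤ 4 * cst C / (1 + |U|) ^ 2 := by
      rw [le_div_iff₀ (by positivity)]
      have : (1 + |U|) ^ 2 ≤ 4 := by nlinarith
      nlinarith
    have h2 := h.up hU hN
    have h3 := h.low hU hN
    constructor <;> linarith
  · have hU2 : 0 < U ^ 2 := by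
      rw [← sq_abs]; positivity
    have h1 : cst C / U ^ 2 ≤ 4 * cst C / (1 + |U|) ^ 2 := by
      rw [div_le_div_iff₀ hU2 (by positivity)]
      have : (1 + |U|) ^ 2 ≤ 4 * U ^ 2 := by
        rw [← sq_abs U]
        nlinarith
      nlinarith
    have h2 := h.far (V := V) hU
    rw [abs_le] at h2
    have h3 := le_max_left 0 (Real.log (1 / Real.sqrt (U ^ 2 + V ^ 2)))
    constructor <;> linarith [h2.1, h2.2]

end

/-- UM5-KLG -/
theorem t_KLG : Pool.Agent.Q97.UM.J_KLG := by
  intro hKB ψ₁ k₀ hK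
  obtain ⟨hev, hint, hone, -, hdec⟩ := hKB ψ₁ k₀ hK
  obtain ⟨C, hC0, hC, -⟩ := hdec 6
  have h : KK k₀ C := ⟨hK.cont, hK.nonneg, hev, hint, hone, hC0, hC⟩
  refine ⟨4 * cst C, by have := cst_nonneg hC0; positivity, ?_⟩
  intro D u v hD huv
  have hD0 : 0 < D := by linarith
  have hn : 0 < u ^ 2 + v ^ 2 := by
    rcases huv with h1 | h1
    · positivity
    · positivity
  have hN : 0 < (D * u) ^ 2 + (D * v) ^ 2 := by
    have : (D * u) ^ 2 + (D * v) ^ 2 = D ^ 2 * (u ^ 2 + v ^ 2) := by ring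
    rw [this]
    positivity
  set Φ : ℝ → ℝ := fun z => k₀ z * (gg (D * u) (D * v) 0 - gg (D * u) (D * v) z) with hΦ
  have hΦI : Integrable Φ := h.int0 _ _
  have hlog : ∀ x : ℝ, 0 < x → Real.log (D ^ 2 * x) = 2 * Real.log D + Real.log x := by
    intro x hx
    rw [Real.log_mul (by positivity) hx.ne', Real.log_pow]
    push_cast
    ring
  have hae : ∀ᵐ y : ℝ, D * Φ (D * y) =
      D * k₀ (D * y) * (Real.log (u ^ 2 + v ^ 2) / 2 - Real.log ((u + y) ^ 2 + v ^ 2) / 2) := by
    filter_upwards [Measure.ae_ne volume (-u)] with y hy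
    have hy' : u + y ≠ 0 := fun h => hy (by linarith)
    have h1 : 0 < (u + y) ^ 2 + v ^ 2 := by positivity
    show D * (k₀ (D * y) * (gg (D * u) (D * v) 0 - gg (D * u) (D * v) (D * y))) = _
    have e1 : gg (D * u) (D * v) 0 = (2 * Real.log D + Real.log (u ^ 2 + v ^ 2)) / 2 := by
      unfold gg
      rw [← hlog _ hn]
      congr 2
      ring
    have e2 : gg (D * u) (D * v) (D * y) =
        (2 * Real.log D + Real.log ((u + y) ^ 2 + v ^ 2)) / 2 := by
      unfold gg
      rw [← hlog _ h1]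
      congr 2
      ring
    rw [e1, e2]
    ring
  have hI : Integrable (fun y : ℝ => D * k₀ (D * y) *
      (Real.log (u ^ 2 + v ^ 2) / 2 - Real.log ((u + y) ^ 2 + v ^ 2) / 2)) := by
    refine ((hΦI.comp_mul_left' hD0.ne').const_mul D).congr ?_
    exact hae
  have hG : Pool.Agent.Q97.UM.GK k₀ D u v = ∫ z, Φ z := by
    unfold Pool.Agent.Q97.UM.GK
    rw [← integral_congr_ae hae, integral_const_mul, Measure.integral_comp_mul_left Φ D,
      abs_of_pos (inv_pos.2 hD0), smul_eq_mul, ← mul_assoc, mul_inv_cancel₀ hD0.ne', one_mul]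
  obtain ⟨b1, b2⟩ := h.all (U := D * u) (V := D * v) hN
  have eU : |D * u| = D * |u| := by rw [abs_mul, abs_of_pos hD0]
  have eS : Real.sqrt ((D * u) ^ 2 + (D * v) ^ 2) = D * Real.sqrt (u ^ 2 + v ^ 2) := by
    have : (D * u) ^ 2 + (D * v) ^ 2 = D ^ 2 * (u ^ 2 + v ^ 2) := by ring
    rw [this, Real.sqrt_mul (by positivity), Real.sqrt_sq hD0.le]
  rw [eU] at b1 b2
  rw [eS] at b2
  refine ⟨hI, ?_, ?_, ?_⟩
  · rw [hG]
    exact b1
  · rw [hG]
    exact b2
  · intro hv hDu
    rw [hG, hΦ]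
    subst hv
    have b3 := h.line (U := D * u) (by rw [eU]; exact hDu)
    rw [eU] at b3
    rw [mul_zero]
    have := cst_nonneg hC0
    linarith

end Pool.Agent.Q121.UM
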