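import Pool.Agent.Q97.UM.Stm10
import Pool.Agent.H370R2.Rect

/-!
UM5-LIT: Littlewood's lemma with a weight.
-/

set_option autoImplicit false

namespace Pool.Agent.Q121.UM

open Filter Topology MeasureTheory Complex Set

/-- the product measure on the box -/
noncomputable def mu (a b c d : ℝ) : Measure (ℝ × ℝ) :=
  (volume.restrict (Ioc a b)).prod (volume.restrict (Ioc c d))

theorem hd_log {f : ℝ → ℂ} {f' : ℂ} {x : ℝ} (hf : HasDerivAt f f' x) (h0 : f x ≠ 0) :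
    HasDerivAt (fun t => Real.log ‖f t‖) (f' / f x).re x := by
  have h1 := hf.norm_sq
  have hn : ‖f x‖ ≠ 0 := norm_ne_zero_iff.2 h0
  have h2 := (h1.log (pow_ne_zero 2 hn)).div_const 2
  have e1 : (fun t => Real.log ((‖f t‖) ^ 2) / 2) = fun t => Real.log ‖f t‖ := by
    funext t
    rw [Real.log_pow]
    push_cast
    ring
  have h3 : HasDerivAt (fun t => Real.log ‖f t‖) (2 * inner ℝ (f x) f' / ‖f x‖ ^ 2 / 2) x := by
    rw [← e1]
    exact h2
  convert h3 using 1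
  rw [← Complex.normSq_eq_norm_sq, Complex.div_re]
  have e2 : inner ℝ (f x) f' = f'.re * (f x).re + f'.im * (f x).im := by
    rw [Complex.inner]
    simp
  rw [e2]
  ring

theorem ii_inv (a b β : ℝ) :
    IntervalIntegrable (fun x : ℝ => |x - β| ^ (-(1 / 2) : ℝ)) volume a b := by
  have h0 : ∀ r : ℝ, IntervalIntegrable (fun x : ℝ => |x| ^ (-(1 / 2) : ℝ)) volume 0 r := by
    have hp : ∀ r : ℝ, 0 ≤ r → IntervalIntegrable (fun x : ℝ => |x| ^ (-(1 / 2) : ℝ)) volume 0 r := by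
      intro r hr
      have h1 : IntervalIntegrable (fun x : ℝ => x ^ (-(1 / 2) : ℝ)) volume 0 r :=
        intervalIntegral.intervalIntegrable_rpow' (by norm_num)
      refine h1.congr ?_
      rw [uIoc_of_le hr]
      intro x hx
      show x ^ (-(1 / 2) : ℝ) = |x| ^ (-(1 / 2) : ℝ)
      rw [abs_of_pos hx.1]
    intro r
    rcases le_total 0 r with hr | hr
    · exact hp r hr
    · have h1 := (hp (-r) (by linarith)).comp_mul_left (c := -1)
      have h2 : (fun x : ℝ => |-1 * x| ^ (-(1 / 2) : ℝ)) = fun x : ℝ => |x| ^ (-(1 / 2) : ℝ) := by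
        funext x
        rw [neg_one_mul, abs_neg]
      rw [h2] at h1
      simpa using h1
  have h1 : IntervalIntegrable (fun x : ℝ => |x| ^ (-(1 / 2) : ℝ)) volume (a - β) (b - β) :=
    (h0 (a - β)).symm.trans (h0 (b - β))
  have h2 := h1.comp_sub_right β
  simpa using h2

theorem io_inv {a b : ℝ} (hab : a ≤ b) (β : ℝ) :
    Integrable (fun x : ℝ => |x - β| ^ (-(1 / 2) : ℝ)) (volume.restrict (Ioc a b)) :=
  (intervalIntegrable_iff_integrableOn_Ioc_of_le hab).1 (ii_inv a b β)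

theorem box_inv {a b c d : ℝ} (hab : a ≤ b) (hcd : c ≤ d) (ρ : ℂ) :
    Integrable (fun p : ℝ × ℝ => ((⟨p.1, p.2⟩ : ℂ) - ρ)⁻¹) (mu a b c d) := by
  have h1 : Integrable (fun p : ℝ × ℝ => |p.1 - ρ.re| ^ (-(1 / 2) : ℝ) *
      |p.2 - ρ.im| ^ (-(1 / 2) : ℝ)) (mu a b c d) :=
    (io_inv hab ρ.re).mul_prod (io_inv hcd ρ.im)
  refine h1.mono' ?_ ?_
  · have hm : Measurable (fun p : ℝ × ℝ => (⟨p.1, p.2⟩ : ℂ)) := by
      have : (fun p : ℝ × ℝ => (⟨p.1, p.2⟩ : ℂ)) = fun p : ℝ × ℝ => (p.1 : ℂ) + p.2 * I := by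
        funext p
        exact H370.mk_eq _ _
      rw [this]
      fun_prop
    exact ((hm.sub_const ρ).inv).aestronglyMeasurable
  · have e1 : ∀ᵐ p ∂(mu a b c d), p.1 ≠ ρ.re := by
      have : ∀ᵐ x ∂(volume.restrict (Ioc a b)), x ≠ ρ.re :=
        ae_restrict_of_ae (Measure.ae_ne volume ρ.re)
      exact Measure.quasiMeasurePreserving_fst.ae this
    have e2 : ∀ᵐ p ∂(mu a b c d), p.2 ≠ ρ.im := by
      have : ∀ᵐ x ∂(volume.restrict (Ioc c d)), x ≠ ρ.im :=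
        ae_restrict_of_ae (Measure.ae_ne volume ρ.im)
      exact Measure.quasiMeasurePreserving_snd.ae this
    filter_upwards [e1, e2] with p h1 h2
    have hx : 0 < |p.1 - ρ.re| := abs_pos.2 (sub_ne_zero.2 h1)
    have hy : 0 < |p.2 - ρ.im| := abs_pos.2 (sub_ne_zero.2 h2)
    rw [norm_inv, ← Real.mul_rpow hx.le hy.le, Real.rpow_neg (by positivity)]
    apply inv_anti₀ (by positivity)
    rw [← Real.sqrt_eq_rpow]
    apply Real.sqrt_le_iff.2
    refine ⟨norm_nonneg _, ?_⟩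
    rw [← Complex.normSq_eq_norm_sq, Complex.normSq_apply]
    have : |p.1 - ρ.re| * |p.2 - ρ.im| ≤ |p.1 - ρ.re| ^ 2 + |p.2 - ρ.im| ^ 2 := by
      nlinarith [sq_nonneg (|p.1 - ρ.re| - |p.2 - ρ.im|), hx, hy]
    rw [sq_abs, sq_abs] at this
    simp only [sub_re, sub_im]
    nlinarith

/-- decomposition of the logarithmic derivative on a box -/
theorem decomp {a b c d : ℝ} (n : ℕ) : ∀ (F : ℂ → ℂ) (Z : Finset ℂ), Z.card = n →
    AnalyticOnNhd ℂ F (Icc a b ×ℂ Icc c d) →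
    (∀ s ∈ Icc a b ×ℂ Icc c d, F s = 0 ↔ s ∈ Z) →
    (∀ s ∈ Z, s ∈ Icc a b ×ℂ Icc c d ∧ analyticOrderAt F s ≠ ⊤) →
    ∃ (φ : ℂ → ℂ) (m : ℂ → ℕ), ContinuousOn φ (Icc a b ×ℂ Icc c d) ∧
      ∀ s ∈ Icc a b ×ℂ Icc c d, F s ≠ 0 →
        deriv F s / F s = ∑ ρ ∈ Z, (m ρ : ℂ) * (s - ρ)⁻¹ + φ s := by
  induction n with
  | zero =>
    intro F Z hZ hF hz _
    rw [Finset.card_eq_zero] at hZ
    subst hZ
    refine ⟨fun s => deriv F s / F s, fun _ => 0, ?_, fun s _ _ => by simp⟩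
    intro s hs
    have h0 : F s ≠ 0 := fun h => by simpa using (hz s hs).1 h
    exact ((hF s hs).deriv.continuousAt.div (hF s hs).continuousAt h0).continuousWithinAt
  | succ n ih =>
    intro F Z hZ hF hz hz2
    obtain ⟨ρ, hρ⟩ : Z.Nonempty := Finset.card_pos.1 (by omega)
    obtain ⟨hρK, hρo⟩ := hz2 ρ hρ
    have hFρ := hF ρ hρK
    set m := analyticOrderNatAt F ρ with hm
    have hmo : analyticOrderAt F ρ = (m : ℕ∞) := by
      rw [hm, Nat.cast_analyticOrderNatAt hρo]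
    obtain ⟨g0, hg0, hg0ne, hg0e⟩ := (hFρ.analyticOrderAt_eq_natCast).1 hmo
    set G : ℂ → ℂ := Function.update (fun z => F z / (z - ρ) ^ m) ρ (g0 ρ) with hG
    have hGne : ∀ s, s ≠ ρ → G s = F s / (s - ρ) ^ m := by
      intro s hs; rw [hG, Function.update_of_ne hs]
    have hGρ : G ρ = g0 ρ := by rw [hG, Function.update_self]
    have hFG : ∀ s, s ≠ ρ → F s = (s - ρ) ^ m * G s := by
      intro s hs
      rw [hGne s hs, mul_div_cancel₀]
      exact pow_ne_zero _ (sub_ne_zero.2 hs)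
    have hGe : G =ᶠ[𝓝 ρ] g0 := by
      filter_upwards [hg0e] with z hzz
      by_cases hzρ : z = ρ
      · rw [hzρ, hGρ]
      · rw [hGne z hzρ, hzz, smul_eq_mul, mul_div_cancel_left₀]
        exact pow_ne_zero _ (sub_ne_zero.2 hzρ)
    have hGe2 : ∀ s, s ≠ ρ → G =ᶠ[𝓝 s] fun z => F z / (z - ρ) ^ m := by
      intro s hs
      filter_upwards [isOpen_ne.mem_nhds hs] with z hz
      exact hGne z hz
    have hFe2 : ∀ s, s ≠ ρ → F =ᶠ[𝓝 s] fun z => (z - ρ) ^ m * G z := by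
      intro s hs
      filter_upwards [isOpen_ne.mem_nhds hs] with z hz
      exact hFG z hz
    have hpow : ∀ s : ℂ, AnalyticAt ℂ (fun z => (z - ρ) ^ m) s := fun s => by fun_prop
    have hGan : AnalyticOnNhd ℂ G (Icc a b ×ℂ Icc c d) := by
      intro s hs
      by_cases hsρ : s = ρ
      · subst hsρ; exact hg0.congr hGe.symm
      · exact ((hF s hs).div (hpow s) (pow_ne_zero _ (sub_ne_zero.2 hsρ))).congr (hGe2 s hsρ).symm
    have hZ' : (Z.erase ρ).card = n := by rw [Finset.card_erase_of_mem hρ, hZ]; rfl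
    have hz' : ∀ s ∈ Icc a b ×ℂ Icc c d, G s = 0 ↔ s ∈ Z.erase ρ := by
      intro s hs
      rw [Finset.mem_erase]
      by_cases hsρ : s = ρ
      · subst hsρ
        simp only [ne_eq, not_true_eq_false, false_and, iff_false]
        rw [hGρ]; exact hg0ne
      · rw [hGne s hsρ, div_eq_zero_iff, hz s hs]
        simp [hsρ, sub_ne_zero.2 hsρ]
    have hord : ∀ s, s ≠ ρ → s ∈ Icc a b ×ℂ Icc c d →
        analyticOrderAt F s = analyticOrderAt G s := by
      intro s hs hsK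
      rw [analyticOrderAt_congr (hFe2 s hs)]
      have : (fun z => (z - ρ) ^ m * G z) = (fun z => (z - ρ) ^ m) * G := rfl
      rw [this, analyticOrderAt_mul (hpow s) (hGan s hsK)]
      have h0 : analyticOrderAt (fun z => (z - ρ) ^ m) s = 0 :=
        (hpow s).analyticOrderAt_eq_zero.2 (pow_ne_zero _ (sub_ne_zero.2 hs))
      rw [h0, zero_add]
    have hz2' : ∀ s ∈ Z.erase ρ, s ∈ Icc a b ×ℂ Icc c d ∧ analyticOrderAt G s ≠ ⊤ := by
      intro s hs
      rw [Finset.mem_erase] at hs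
      obtain ⟨h1, h2⟩ := hz2 s hs.2
      refine ⟨h1, ?_⟩
      rw [← hord s hs.1 h1]
      exact h2
    obtain ⟨φ, m', hφ, he⟩ := ih G (Z.erase ρ) hZ' hGan hz' hz2'
    refine ⟨φ, Function.update m' ρ m, hφ, ?_⟩
    intro s hs hFs
    have hsρ : s ≠ ρ := by
      rintro rfl
      exact hFs ((hz s hs).2 hρ)
    have hsub := sub_ne_zero.2 hsρ
    have hGs : G s ≠ 0 := by
      intro h0
      rw [hFG s hsρ, h0, mul_zero] at hFs
      exact hFs rfl
    have h1 : deriv F s = m * (s - ρ) ^ (m - 1) * G s + (s - ρ) ^ m * deriv G s := by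
      rw [(hFe2 s hsρ).deriv_eq]
      have hd1 : HasDerivAt (fun z : ℂ => (z - ρ) ^ m) (m * (s - ρ) ^ (m - 1)) s := by
        have h3 := ((hasDerivAt_id s).sub_const ρ).fun_pow m
        simpa using h3
      exact (hd1.mul (hGan s hs).differentiableAt.hasDerivAt).deriv
    have h2 : deriv F s / F s = (m : ℂ) * (s - ρ)⁻¹ + deriv G s / G s := by
      rw [h1, hFG s hsρ]
      rcases Nat.eq_zero_or_pos m with h0 | hpos
      · rw [h0]; simp
      · obtain ⟨k, hk⟩ : ∃ k, m = k + 1 := ⟨m - 1, by omega⟩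
        rw [hk]
        simp only [Nat.add_sub_cancel, pow_succ]
        field_simp
    rw [h2, he s hs hGs, ← Finset.add_sum_erase Z _ hρ, Function.update_self]
    have e3 : ∑ x ∈ Z.erase ρ, ((Function.update m' ρ m x : ℕ) : ℂ) * (s - x)⁻¹ =
        ∑ x ∈ Z.erase ρ, (m' x : ℂ) * (s - x)⁻¹ := by
      apply Finset.sum_congr rfl
      intro x hx
      rw [Function.update_of_ne (Finset.ne_of_mem_erase hx)]
    rw [e3]
    ring

theorem cont_mk_left (y : ℝ) : Continuous (fun x : ℝ => (⟨x, y⟩ : ℂ)) := by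
  have : (fun x : ℝ => (⟨x, y⟩ : ℂ)) = fun x : ℝ => (x : ℂ) + y * I := by
    funext x; exact H370.mk_eq x y
  rw [this]; fun_prop

theorem cont_mk_right (x : ℝ) : Continuous (fun y : ℝ => (⟨x, y⟩ : ℂ)) := by
  have : (fun y : ℝ => (⟨x, y⟩ : ℂ)) = fun y : ℝ => (x : ℂ) + y * I := by
    funext y; exact H370.mk_eq x y
  rw [this]; fun_prop

theorem cont_mk : Continuous (fun p : ℝ × ℝ => (⟨p.1, p.2⟩ : ℂ)) := by
  have : (fun p : ℝ × ℝ => (⟨p.1, p.2⟩ : ℂ)) = fun p : ℝ × ℝ => (p.1 : ℂ) + p.2 * I := by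
    funext p
    exact H370.mk_eq _ _
  rw [this]; fun_prop

theorem mu_eq (a b c d : ℝ) : mu a b c d =
    ((volume : Measure ℝ).prod (volume : Measure ℝ)).restrict (Ioc a b ×ˢ Ioc c d) := by
  unfold mu
  rw [Measure.prod_restrict]

/-- the logarithmic derivative is integrable on the box -/
theorem box_int {a b c d : ℝ} (hab : a ≤ b) (hcd : c ≤ d) (F : ℂ → ℂ) (Z : Finset ℂ)
    (hF : AnalyticOnNhd ℂ F (Icc a b ×ℂ Icc c d))
    (hz : ∀ s ∈ Icc a b ×ℂ Icc c d, F s = 0 ↔ s ∈ Z)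
    (hz2 : ∀ s ∈ Z, s ∈ Icc a b ×ℂ Icc c d ∧ analyticOrderAt F s ≠ ⊤) :
    Integrable (fun p : ℝ × ℝ => deriv F ⟨p.1, p.2⟩ / F ⟨p.1, p.2⟩) (mu a b c d) := by
  obtain ⟨φ, m, hφ, he⟩ := decomp Z.card F Z rfl hF hz hz2
  have h1 : Integrable (fun p : ℝ × ℝ => ∑ ρ ∈ Z, (m ρ : ℂ) * ((⟨p.1, p.2⟩ : ℂ) - ρ)⁻¹ +
      φ ⟨p.1, p.2⟩) (mu a b c d) := by
    apply Integrable.add
    · apply integrable_finsetSum
      intro ρ _
      exact (box_inv hab hcd ρ).const_mul _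
    · rw [mu_eq]
      have h2 : ContinuousOn (fun p : ℝ × ℝ => φ ⟨p.1, p.2⟩) (Icc a b ×ˢ Icc c d) := by
        apply hφ.comp cont_mk.continuousOn
        rintro p ⟨hp1, hp2⟩
        exact ⟨hp1, hp2⟩
      have h3 : IntegrableOn (fun p : ℝ × ℝ => φ ⟨p.1, p.2⟩) (Icc a b ×ˢ Icc c d)
          ((volume : Measure ℝ).prod (volume : Measure ℝ)) :=
        h2.integrableOn_compact (isCompact_Icc.prod isCompact_Icc)
      exact h3.mono_set (Set.prod_mono Ioc_subset_Icc_self Ioc_subset_Icc_self)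
  refine h1.congr ?_
  have e1 : ∀ᵐ p ∂(mu a b c d), p.1 ∉ (Z.image re : Finset ℝ) := by
    have : ∀ᵐ x ∂(volume.restrict (Ioc a b)), x ∉ (Z.image re : Finset ℝ) :=
      ae_restrict_of_ae ((Finset.countable_toSet (Z.image re)).ae_notMem volume)
    exact Measure.quasiMeasurePreserving_fst.ae this
  have e2 : ∀ᵐ p ∂(mu a b c d), p ∈ Ioc a b ×ˢ Ioc c d := by
    rw [mu_eq]
    exact ae_restrict_mem (measurableSet_Ioc.prod measurableSet_Ioc)
  filter_upwards [e1, e2] with p h1 h2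
  have hK : (⟨p.1, p.2⟩ : ℂ) ∈ Icc a b ×ℂ Icc c d :=
    ⟨Ioc_subset_Icc_self h2.1, Ioc_subset_Icc_self h2.2⟩
  rw [he _ hK]
  intro h0
  exact h1 (Finset.mem_image.2 ⟨_, (hz _ hK).1 h0, rfl⟩)

/-- clamping to an interval -/
theorem clamp {c d : ℝ} (hcd : c ≤ d) {W : ℝ → ℂ} (hW : ContinuousOn W (Icc c d)) :
    ∃ W' : ℝ → ℂ, Continuous W' ∧ ∀ y ∈ Icc c d, W' y = W y := by
  refine ⟨fun y => W (max c (min y d)), ?_, ?_⟩
  · apply hW.comp_continuous (by fun_prop)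
    intro y
    exact ⟨le_max_left _ _, max_le hcd (min_le_right _ _)⟩
  · rintro y ⟨h1, h2⟩
    show W (max c (min y d)) = W y
    rw [min_eq_left h2, max_eq_right h1]

theorem cont1 {c d b t : ℝ} (hcd : c ≤ d) {W κ : ℂ → ℂ} (hκ : Continuous κ)
    (hW : ContinuousOn (fun y : ℝ => W ⟨b, y⟩) (Icc c d)) :
    Continuous (fun σ : ℝ => ∫ y in c..d, W ⟨b, y⟩ * κ (((b - σ : ℝ) : ℂ) + (y - t : ℝ) * I)) := by
  obtain ⟨W', hc, he⟩ := clamp hcd hW
  have e : (fun σ : ℝ => ∫ y in c..d, W ⟨b, y⟩ * κ (((b - σ : ℝ) : ℂ) + (y - t : ℝ) * I)) =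
      fun σ : ℝ => ∫ y in c..d, W' y * κ (((b - σ : ℝ) : ℂ) + (y - t : ℝ) * I) := by
    funext σ
    apply intervalIntegral.integral_congr
    intro y hy
    rw [uIcc_of_le hcd] at hy
    show W ⟨b, y⟩ * _ = W' y * _
    rw [he y hy]
  rw [e]
  apply intervalIntegral.continuous_parametric_intervalIntegral_of_continuous'
  fun_prop

theorem cont2 {a b e t : ℝ} (hab : a ≤ b) {W κ : ℂ → ℂ} (hκ : Continuous κ)
    (hW : ContinuousOn (fun x : ℝ => W ⟨x, e⟩) (Icc a b)) :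
    ContinuousOn (fun σ : ℝ => ∫ x in σ..b, W ⟨x, e⟩ * κ (((x - σ : ℝ) : ℂ) + (e - t : ℝ) * I))
      (Icc a b) := by
  obtain ⟨W', hc, he⟩ := clamp hab hW
  have h1 : Continuous (fun σ : ℝ =>
      ∫ x in b..σ, W' x * κ (((x - σ : ℝ) : ℂ) + (e - t : ℝ) * I)) := by
    apply intervalIntegral.continuous_parametric_intervalIntegral_of_continuous
    · fun_prop
    · fun_prop
  refine h1.neg.continuousOn.congr ?_
  intro σ hσ
  show _ = -∫ x in b..σ, W' x * κ (((x - σ : ℝ) : ℂ) + (e - t : ℝ) * I)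
  rw [← intervalIntegral.integral_symm]
  apply intervalIntegral.integral_congr
  intro x hx
  rw [uIcc_of_le hσ.2] at hx
  show W ⟨x, e⟩ * _ = W' x * _
  rw [he x ⟨hσ.1.trans hx.1, hx.2⟩]

/-- the vertical integral -/
theorem vert {F κ : ℂ → ℂ} {a b c d t σ : ℝ} {Z : Finset ℂ} (hcd : c < d)
    (hF : AnalyticOnNhd ℂ F (Icc a b ×ℂ Icc c d)) (hκ : Differentiable ℂ κ)
    (hκ0 : ∀ y : ℝ, (κ (y * I)).im = 0)
    (h1 : ∀ x ∈ Icc a b, F ⟨x, c⟩ ≠ 0 ∧ F ⟨x, d⟩ ≠ 0) (h2 : ∀ y ∈ Icc c d, F ⟨b, y⟩ ≠ 0)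
    (hZ : ∀ s : ℂ, s ∈ Z ↔ a < s.re ∧ s.re < b ∧ c < s.im ∧ s.im < d ∧ F s = 0)
    (hσa : a < σ) (hσb : σ < b) (hσ : ∀ y ∈ Icc c d, F ⟨σ, y⟩ ≠ 0) :
    (∫ y in c..d, (deriv F ⟨σ, y⟩ / F ⟨σ, y⟩).re * (κ ((y - t : ℝ) * I)).re) =
      (∫ y in c..d, deriv F ⟨b, y⟩ / F ⟨b, y⟩ * κ (((b - σ : ℝ) : ℂ) + (y - t : ℝ) * I)).re +
      ((∫ x in σ..b, deriv F ⟨x, c⟩ / F ⟨x, c⟩ * κ (((x - σ : ℝ) : ℂ) + (c - t : ℝ) * I)) -
      (∫ x in σ..b, deriv F ⟨x, d⟩ / F ⟨x, d⟩ * κ (((x - σ : ℝ) : ℂ) + (d - t : ℝ) * I))).im -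
      2 * Real.pi * ∑ s ∈ Z, (H370.mult F s : ℝ) *
        (if σ < s.re then (κ (s - (σ + t * I))).re else 0) := by
  have hsub : Icc σ b ×ℂ Icc c d ⊆ Icc a b ×ℂ Icc c d := by
    rintro s ⟨hs1, hs2⟩
    exact ⟨⟨hσa.le.trans hs1.1, hs1.2⟩, hs2⟩
  have hh : Differentiable ℂ (fun s => κ (s - (σ + t * I))) := by
    apply hκ.comp
    fun_prop
  obtain ⟨-, hr⟩ := H370.rect_residue F (fun s => κ (s - (σ + t * I))) σ b c d hσb hcd
    (hF.mono hsub) hh (by
      rintro s ⟨hs1, hs2⟩ h0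
      rw [mem_preimage] at hs1 hs2
      refine ⟨⟨lt_of_le_of_ne hs1.1 ?_, lt_of_le_of_ne hs1.2 ?_⟩,
        ⟨lt_of_le_of_ne hs2.1 ?_, lt_of_le_of_ne hs2.2 ?_⟩⟩
      · intro h
        exact hσ s.im hs2 (by rw [h]; exact h0)
      · intro h
        exact h2 s.im hs2 (by rw [← h]; exact h0)
      · intro h
        exact (h1 s.re ⟨hσa.le.trans hs1.1, hs1.2⟩).1 (by rw [h]; exact h0)
      · intro h
        exact (h1 s.re ⟨hσa.le.trans hs1.1, hs1.2⟩).2 (by rw [← h]; exact h0))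
  have hset : {s | s ∈ Ioo σ b ×ℂ Ioo c d ∧ F s = 0} =
      ((Z.filter (fun s => σ < s.re) : Finset ℂ) : Set ℂ) := by
    ext s
    rw [Finset.mem_coe, Finset.mem_filter, hZ]
    constructor
    · rintro ⟨⟨⟨q1, q2⟩, q3, q4⟩, q5⟩
      exact ⟨⟨hσa.trans q1, q2, q3, q4, q5⟩, q1⟩
    · rintro ⟨⟨q1, q2, q3, q4, q5⟩, q6⟩
      exact ⟨⟨⟨q6, q2⟩, q3, q4⟩, q5⟩
  rw [hset, finsum_mem_coe_finset] at hr
  have k1 : ∀ x y : ℝ, κ ((⟨x, y⟩ : ℂ) - (σ + t * I)) = κ (((x - σ : ℝ) : ℂ) + (y - t : ℝ) * I) := by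
    intro x y
    congr 1
    rw [H370.mk_eq]
    push_cast
    ring
  simp only [k1] at hr
  have k2 : ∀ y : ℝ, κ (((σ - σ : ℝ) : ℂ) + (y - t : ℝ) * I) = ((κ ((y - t : ℝ) * I)).re : ℂ) := by
    intro y
    rw [sub_self, ofReal_zero, zero_add]
    apply Complex.ext
    · rw [ofReal_re]
    · rw [ofReal_im]
      exact hκ0 _
  simp only [k2] at hr
  have hci : IntervalIntegrable (fun y : ℝ => deriv F ⟨σ, y⟩ / F ⟨σ, y⟩ *
      ((κ ((y - t : ℝ) * I)).re : ℂ)) volume c d := by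
    apply ContinuousOn.intervalIntegrable
    rw [uIcc_of_le hcd.le]
    have hm : MapsTo (fun y : ℝ => (⟨σ, y⟩ : ℂ)) (Icc c d) (Icc a b ×ℂ Icc c d) :=
      fun y hy => ⟨⟨hσa.le, hσb.le⟩, hy⟩
    apply ContinuousOn.mul
    · apply ContinuousOn.div
      · exact (hF.deriv.continuousOn).comp (cont_mk_right σ).continuousOn hm
      · exact (hF.continuousOn).comp (cont_mk_right σ).continuousOn hm
      · exact hσ
    · apply Continuous.continuousOn
      have := hκ.continuous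
      fun_prop
  have k3 : (∫ y in c..d, (deriv F ⟨σ, y⟩ / F ⟨σ, y⟩).re * (κ ((y - t : ℝ) * I)).re) =
      (∫ y in c..d, deriv F ⟨σ, y⟩ / F ⟨σ, y⟩ * ((κ ((y - t : ℝ) * I)).re : ℂ)).re := by
    have := Complex.reCLM.intervalIntegral_comp_comm hci
    rw [← Complex.reCLM_apply, ← this]
    apply intervalIntegral.integral_congr
    intro y _
    simp only [Complex.reCLM_apply, mul_re, ofReal_re, ofReal_im, mul_zero, sub_zero]
  rw [k3]
  have k4 : ∀ V A B S E : ℂ, A - B + I * V - I * S = 2 * Real.pi * I * E →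
      S.re = V.re + (A - B).im - 2 * Real.pi * E.re := by
    intro V A B S E h
    have := congrArg Complex.im h
    simp at this
    simp
    linarith
  rw [k4 _ _ _ _ _ hr]
  congr 2
  rw [Complex.re_sum, Finset.sum_filter]
  apply Finset.sum_congr rfl
  intro s _
  have k5 : κ (((s.re - σ : ℝ) : ℂ) + (s.im - t : ℝ) * I) = κ (s - (σ + t * I)) := by
    rw [← k1 s.re s.im]
  split_ifs with hs
  · rw [k5]
    simp
  · simp

/-- the horizontal integral of the logarithmic derivative -/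
theorem horiz {F : ℂ → ℂ} {a b c d y : ℝ} (hab : a ≤ b)
    (hF : AnalyticOnNhd ℂ F (Icc a b ×ℂ Icc c d)) (hy : y ∈ Icc c d)
    (h : ∀ x ∈ Icc a b, F ⟨x, y⟩ ≠ 0) :
    ∫ x in a..b, (deriv F ⟨x, y⟩ / F ⟨x, y⟩).re = Real.log ‖F ⟨b, y⟩‖ - Real.log ‖F ⟨a, y⟩‖ := by
  apply intervalIntegral.integral_eq_sub_of_hasDerivAt
    (f := fun x : ℝ => Real.log ‖F ⟨x, y⟩‖)
  · intro x hx
    rw [uIcc_of_le hab] at hx
    have h1 : HasDerivAt (fun z : ℂ => F (z + y * I)) (deriv F ((x : ℂ) + y * I)) (x : ℂ) := by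
      apply HasDerivAt.comp_add_const
      rw [← H370.mk_eq]
      exact (hF ⟨x, y⟩ ⟨hx, hy⟩).differentiableAt.hasDerivAt
    have h2 := h1.comp_ofReal
    have e1 : (fun x : ℝ => F ((x : ℂ) + y * I)) = fun x : ℝ => F ⟨x, y⟩ := by
      funext x
      rw [H370.mk_eq]
    rw [e1, ← H370.mk_eq] at h2
    exact hd_log h2 (h x hx)
  · apply ContinuousOn.intervalIntegrable
    rw [uIcc_of_le hab]
    have hm : MapsTo (fun x : ℝ => (⟨x, y⟩ : ℂ)) (Icc a b) (Icc a b ×ℂ Icc c d) :=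
      fun x hx => ⟨hx, hy⟩
    apply Complex.continuous_re.comp_continuousOn
    apply ContinuousOn.div
    · exact (hF.deriv.continuousOn).comp (cont_mk_left y).continuousOn hm
    · exact (hF.continuousOn).comp (cont_mk_left y).continuousOn hm
    · exact h

/-- UM5-LIT -/
theorem t_LIT : Pool.Agent.Q97.UM.S_LIT := by
  intro F κ a b c d t Z hab hcd hF hκ hκ0 h1 h2 hZ
  set K : Set ℂ := Icc a b ×ℂ Icc c d with hK
  have hKc : IsCompact K := isCompact_Icc.reProdIm isCompact_Icc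
  have hKpre : IsPreconnected K := by
    have : Convex ℝ K := by
      have h1 := (convex_Icc a b).linear_preimage Complex.reLm
      have h2 := (convex_Icc c d).linear_preimage Complex.imLm
      exact h1.inter h2
    exact this.isPreconnected
  have hcorner : (⟨a, c⟩ : ℂ) ∈ K := ⟨⟨le_rfl, hab.le⟩, ⟨le_rfl, hcd.le⟩⟩
  have hcF : F ⟨a, c⟩ ≠ 0 := (h1 a ⟨le_rfl, hab.le⟩).1
  have hnt0 : ∀ s ∈ K, ¬ (∀ᶠ z in 𝓝 s, F z = 0) := fun s hs h1 =>
    hcF (hF.eqOn_zero_of_preconnected_of_eventuallyEq_zero hKpre hs h1 hcorner)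
  have hnt : ∀ s ∈ K, ∀ᶠ z in 𝓝[≠] s, F z ≠ 0 := by
    intro s hs
    rcases (hF s hs).eventually_eq_zero_or_eventually_ne_zero with h1 | h1
    · exact absurd h1 (hnt0 s hs)
    · exact h1
  have hfin : Set.Finite {s | s ∈ K ∧ F s = 0} := by
    by_contra hinf
    obtain ⟨z, hz, hacc⟩ := Set.Infinite.exists_accPt_of_subset_isCompact hinf hKc
      (fun s hs => hs.1)
    rw [accPt_iff_frequently_nhdsNE] at hacc
    have := hacc.and_eventually (hnt z hz)
    obtain ⟨w, hw⟩ := this.exists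
    exact hw.2 hw.1.2
  set Z0 : Finset ℂ := hfin.toFinset with hZ0
  have hz : ∀ s ∈ K, F s = 0 ↔ s ∈ Z0 := by
    intro s hs
    rw [hZ0, Set.Finite.mem_toFinset]
    exact ⟨fun h => ⟨hs, h⟩, fun h => h.2⟩
  have hz2 : ∀ s ∈ Z0, s ∈ K ∧ analyticOrderAt F s ≠ ⊤ := by
    intro s hs
    rw [hZ0, Set.Finite.mem_toFinset] at hs
    refine ⟨hs.1, ?_⟩
    intro h
    exact hnt0 s hs.1 (analyticOrderAt_eq_top.1 h)
  have hbox := box_int hab.le hcd.le F Z0 hF hz hz2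
  -- the weight
  set κ0 : ℝ → ℝ := fun y => (κ ((y - t : ℝ) * I)).re with hκ0d
  have hκ0c : Continuous κ0 := by
    have := hκ.continuous
    rw [hκ0d]
    fun_prop
  set f : ℝ → ℝ → ℝ := fun σ y => (deriv F ⟨σ, y⟩ / F ⟨σ, y⟩).re * κ0 y with hf
  have hfI : Integrable (Function.uncurry f) (mu a b c d) := by
    obtain ⟨C, hC⟩ := isCompact_Icc.exists_bound_of_continuousOn
      (s := Icc c d) hκ0c.continuousOn
    have h3 : Integrable (fun p : ℝ × ℝ => C * ‖deriv F ⟨p.1, p.2⟩ / F ⟨p.1, p.2⟩‖)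
        (mu a b c d) := hbox.norm.const_mul C
    refine h3.mono' ?_ ?_
    · apply AEStronglyMeasurable.mul
      · exact Complex.continuous_re.comp_aestronglyMeasurable hbox.aestronglyMeasurable
      · exact (hκ0c.comp continuous_snd).aestronglyMeasurable
    · have e2 : ∀ᵐ p ∂(mu a b c d), p ∈ Ioc a b ×ˢ Ioc c d := by
        rw [mu_eq]
        exact ae_restrict_mem (measurableSet_Ioc.prod measurableSet_Ioc)
      filter_upwards [e2] with p hp
      show ‖(deriv F ⟨p.1, p.2⟩ / F ⟨p.1, p.2⟩).re * κ0 p.2‖ ≤ _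
      rw [norm_mul, mul_comm]
      apply mul_le_mul (hC _ (Ioc_subset_Icc_self hp.2)) _ (norm_nonneg _)
        (le_trans (norm_nonneg _) (hC _ (Ioc_subset_Icc_self hp.2)))
      rw [Real.norm_eq_abs]
      exact Complex.abs_re_le_norm _
  -- Fubini
  have hfub : ∫ σ in a..b, ∫ y in c..d, f σ y = ∫ y in c..d, ∫ σ in a..b, f σ y := by
    simp only [intervalIntegral.integral_of_le hab.le, intervalIntegral.integral_of_le hcd.le]
    exact integral_integral_swap hfI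
  have hinner : IntervalIntegrable (fun y => ∫ σ in a..b, f σ y) volume c d := by
    rw [intervalIntegrable_iff_integrableOn_Ioc_of_le hcd.le]
    simp only [intervalIntegral.integral_of_le hab.le]
    exact hfI.integral_prod_right
  have hin : ∀ᵐ y ∂(volume : Measure ℝ), y ∈ Ioc c d →
      ∫ σ in a..b, f σ y = κ0 y * Real.log ‖F ⟨b, y⟩‖ - κ0 y * Real.log ‖F ⟨a, y⟩‖ := by
    filter_upwards [(Finset.countable_toSet (Z0.image im)).ae_notMem volume] with y hy hyI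
    have h3 : ∀ x ∈ Icc a b, F ⟨x, y⟩ ≠ 0 := by
      intro x hx h0
      apply hy
      rw [Finset.mem_coe, Finset.mem_image]
      exact ⟨⟨x, y⟩, (hz _ ⟨hx, Ioc_subset_Icc_self hyI⟩).1 h0, rfl⟩
    rw [hf]
    simp only
    rw [intervalIntegral.integral_mul_const, horiz hab.le hF (Ioc_subset_Icc_self hyI) h3]
    ring
  have hbI : IntervalIntegrable (fun y => κ0 y * Real.log ‖F ⟨b, y⟩‖) volume c d := by
    apply ContinuousOn.intervalIntegrable
    rw [uIcc_of_le hcd.le]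
    apply hκ0c.continuousOn.mul
    apply ContinuousOn.log
    · apply ContinuousOn.norm
      exact (hF.continuousOn).comp (cont_mk_right b).continuousOn
        (fun y hy => ⟨⟨hab.le, le_rfl⟩, hy⟩)
    · intro y hy
      exact norm_ne_zero_iff.2 (h2 y hy)
  have haI : IntervalIntegrable (fun y => κ0 y * Real.log ‖F ⟨a, y⟩‖) volume c d := by
    refine (hbI.sub hinner).congr_ae ?_
    rw [uIoc_of_le hcd.le]
    refine (ae_restrict_iff' measurableSet_Ioc).2 ?_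
    filter_upwards [hin] with y hy hyI
    rw [hy hyI]
    ring
  refine ⟨haI, ?_⟩
  have hA : ∫ y in c..d, ∫ σ in a..b, f σ y =
      (∫ y in c..d, κ0 y * Real.log ‖F ⟨b, y⟩‖) - ∫ y in c..d, κ0 y * Real.log ‖F ⟨a, y⟩‖ := by
    rw [← intervalIntegral.integral_sub hbI haI]
    apply intervalIntegral.integral_congr_ae
    rw [uIoc_of_le hcd.le]
    exact hin
  have hB : ∀ᵐ σ ∂(volume : Measure ℝ), σ ∈ Ioc a b → ∫ y in c..d, f σ y =
      (∫ y in c..d, deriv F ⟨b, y⟩ / F ⟨b, y⟩ * κ (((b - σ : ℝ) : ℂ) + (y - t : ℝ) * I)).re +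
      ((∫ x in σ..b, deriv F ⟨x, c⟩ / F ⟨x, c⟩ * κ (((x - σ : ℝ) : ℂ) + (c - t : ℝ) * I)) -
      (∫ x in σ..b, deriv F ⟨x, d⟩ / F ⟨x, d⟩ * κ (((x - σ : ℝ) : ℂ) + (d - t : ℝ) * I))).im -
      2 * Real.pi * ∑ s ∈ Z, (H370.mult F s : ℝ) *
        (if σ < s.re then (κ (s - (σ + t * I))).re else 0) := by
    filter_upwards [(Finset.countable_toSet (Z0.image re)).ae_notMem volume,
      Measure.ae_ne volume b] with σ hσ hσb hσI
    have h3 : ∀ y ∈ Icc c d, F ⟨σ, y⟩ ≠ 0 := by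
      intro y hy h0
      apply hσ
      rw [Finset.mem_coe, Finset.mem_image]
      exact ⟨⟨σ, y⟩, (hz _ ⟨Ioc_subset_Icc_self hσI, hy⟩).1 h0, rfl⟩
    exact vert hcd hF hκ hκ0 h1 h2 hZ hσI.1 (lt_of_le_of_ne hσI.2 hσb) h3
  have hcb : ContinuousOn (fun y : ℝ => deriv F ⟨b, y⟩ / F ⟨b, y⟩) (Icc c d) := by
    have hm : MapsTo (fun y : ℝ => (⟨b, y⟩ : ℂ)) (Icc c d) K :=
      fun y hy => ⟨⟨hab.le, le_rfl⟩, hy⟩
    apply ContinuousOn.div
    · exact (hF.deriv.continuousOn).comp (cont_mk_right b).continuousOn hm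
    · exact (hF.continuousOn).comp (cont_mk_right b).continuousOn hm
    · exact h2
  have hcc : ∀ e : ℝ, e ∈ Icc c d → (∀ x ∈ Icc a b, F ⟨x, e⟩ ≠ 0) →
      ContinuousOn (fun x : ℝ => deriv F ⟨x, e⟩ / F ⟨x, e⟩) (Icc a b) := by
    intro e he h3
    have hm : MapsTo (fun x : ℝ => (⟨x, e⟩ : ℂ)) (Icc a b) K := fun x hx => ⟨hx, he⟩
    apply ContinuousOn.div
    · exact (hF.deriv.continuousOn).comp (cont_mk_left e).continuousOn hm
    · exact (hF.continuousOn).comp (cont_mk_left e).continuousOn hm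
    · exact h3
  have hI1 : IntervalIntegrable (fun σ : ℝ => (∫ y in c..d, deriv F ⟨b, y⟩ / F ⟨b, y⟩ *
      κ (((b - σ : ℝ) : ℂ) + (y - t : ℝ) * I)).re) volume a b :=
    (Complex.continuous_re.comp
      (cont1 (W := fun s => deriv F s / F s) hcd.le hκ.continuous hcb)).intervalIntegrable _ _
  have hI2 : IntervalIntegrable (fun σ : ℝ =>
      ((∫ x in σ..b, deriv F ⟨x, c⟩ / F ⟨x, c⟩ * κ (((x - σ : ℝ) : ℂ) + (c - t : ℝ) * I)) -
      (∫ x in σ..b, deriv F ⟨x, d⟩ / F ⟨x, d⟩ * κ (((x - σ : ℝ) : ℂ) + (d - t : ℝ) * I))).im)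
      volume a b := by
    apply ContinuousOn.intervalIntegrable
    rw [uIcc_of_le hab.le]
    apply Complex.continuous_im.comp_continuousOn
    apply ContinuousOn.sub
    · exact cont2 (W := fun s => deriv F s / F s) hab.le hκ.continuous
        (hcc c ⟨le_rfl, hcd.le⟩ fun x hx => (h1 x hx).1)
    · exact cont2 (W := fun s => deriv F s / F s) hab.le hκ.continuous
        (hcc d ⟨hcd.le, le_rfl⟩ fun x hx => (h1 x hx).2)
  have hcs : ∀ s : ℂ, Continuous (fun σ : ℝ => (κ (s - (σ + t * I))).re) := by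
    intro s
    have := hκ.continuous
    fun_prop
  have hstep : ∀ s : ℂ, a < s.re → s.re < b →
      IntervalIntegrable (fun σ : ℝ => if σ < s.re then (κ (s - (σ + t * I))).re else 0)
        volume a b ∧
      (∫ σ in a..b, if σ < s.re then (κ (s - (σ + t * I))).re else 0) =
        ∫ σ in a..s.re, (κ (s - (σ + t * I))).re := by
    intro s hs1 hs2
    have e1 : IntervalIntegrable (fun σ : ℝ => if σ < s.re then (κ (s - (σ + t * I))).re else 0)
        volume a s.re := by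
      refine ((hcs s).intervalIntegrable a s.re).congr_ae ?_
      rw [uIoc_of_le hs1.le]
      refine (ae_restrict_iff' measurableSet_Ioc).2 ?_
      filter_upwards [Measure.ae_ne volume s.re] with σ hσ hσI
      rw [if_pos (lt_of_le_of_ne hσI.2 hσ)]
    have e2 : IntervalIntegrable (fun σ : ℝ => if σ < s.re then (κ (s - (σ + t * I))).re else 0)
        volume s.re b := by
      refine (IntervalIntegrable.zero (a := s.re) (b := b) (μ := volume) (E := ℝ)).congr_ae ?_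
      rw [uIoc_of_le hs2.le]
      refine (ae_restrict_iff' measurableSet_Ioc).2 ?_
      filter_upwards with σ hσI
      rw [if_neg (not_lt.2 hσI.1.le)]
      rfl
    refine ⟨e1.trans e2, ?_⟩
    rw [← intervalIntegral.integral_add_adjacent_intervals e1 e2]
    have e3 : (∫ σ in (s.re)..b, if σ < s.re then (κ (s - (σ + t * I))).re else 0) = 0 := by
      apply intervalIntegral.integral_zero_ae
      rw [uIoc_of_le hs2.le]
      filter_upwards with σ hσI
      rw [if_neg (not_lt.2 hσI.1.le)]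
    rw [e3, add_zero]
    apply intervalIntegral.integral_congr_ae
    rw [uIoc_of_le hs1.le]
    filter_upwards [Measure.ae_ne volume s.re] with σ hσ hσI
    rw [if_pos (lt_of_le_of_ne hσI.2 hσ)]
  have hI3 : IntervalIntegrable (fun σ : ℝ => 2 * Real.pi * ∑ s ∈ Z, (H370.mult F s : ℝ) *
        (if σ < s.re then (κ (s - (σ + t * I))).re else 0)) volume a b := by
    apply IntervalIntegrable.const_mul
    have e4 : (fun σ : ℝ => ∑ s ∈ Z, (H370.mult F s : ℝ) *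
        (if σ < s.re then (κ (s - (σ + t * I))).re else 0)) =
        ∑ s ∈ Z, fun σ : ℝ => (H370.mult F s : ℝ) *
        (if σ < s.re then (κ (s - (σ + t * I))).re else 0) := by
      funext σ
      rw [Finset.sum_apply]
    rw [e4]
    apply IntervalIntegrable.sum
    intro s hs
    obtain ⟨q1, q2, -⟩ := (hZ s).1 hs
    exact (hstep s q1 q2).1.const_mul _
  have hC : ∫ σ in a..b, ∫ y in c..d, f σ y =
      (∫ σ in a..b, (∫ y in c..d, deriv F ⟨b, y⟩ / F ⟨b, y⟩ *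
        κ (((b - σ : ℝ) : ℂ) + (y - t : ℝ) * I)).re) +
      (∫ σ in a..b,
        ((∫ x in σ..b, deriv F ⟨x, c⟩ / F ⟨x, c⟩ * κ (((x - σ : ℝ) : ℂ) + (c - t : ℝ) * I)) -
        (∫ x in σ..b, deriv F ⟨x, d⟩ / F ⟨x, d⟩ * κ (((x - σ : ℝ) : ℂ) + (d - t : ℝ) * I))).im) -
      2 * Real.pi * ∑ s ∈ Z, (H370.mult F s : ℝ) * ∫ σ in a..s.re, (κ (s - (σ + t * I))).re := by
    rw [intervalIntegral.integral_congr_ae (by rw [uIoc_of_le hab.le]; exact hB),
      intervalIntegral.integral_sub (hI1.add hI2) hI3, intervalIntegral.integral_add hI1 hI2,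
      intervalIntegral.integral_const_mul, intervalIntegral.integral_finsetSum]
    · congr 2
      apply Finset.sum_congr rfl
      intro s hs
      obtain ⟨q1, q2, -⟩ := (hZ s).1 hs
      rw [intervalIntegral.integral_const_mul, (hstep s q1 q2).2]
    · intro s hs
      obtain ⟨q1, q2, -⟩ := (hZ s).1 hs
      exact (hstep s q1 q2).1.const_mul _
  have hD := hfub
  rw [hA, hC] at hD
  linarith

end Pool.Agent.Q121.UM
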